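import Pool.Agent.Helper334_SA.QE
set_option autoImplicit false

/-!
Quantifiers over several real variables, and the curves `(C y, S y)`, `0 < y < L`, of the basic
solutions of `f'' = -μ f`.
-/

namespace Pool.Agent.T9h73.HS

open Pool.Agent.Helper334_SA Set

/-- semialgebraic predicates are closed under quantification over finitely many variables -/
theorem exists_vec (κ : Type) [Finite κ] : ∀ (ι : Type) (p : (ι ⊕ κ → ℝ) → Prop), SAP p →
    SAP (fun v : ι → ℝ => ∃ c : κ → ℝ, p (Sum.elim v c)) := by
  refine Finite.induction_empty_option (P := fun κ => ∀ (ι : Type) (p : (ι ⊕ κ → ℝ) → Prop),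
    SAP p → SAP (fun v : ι → ℝ => ∃ c : κ → ℝ, p (Sum.elim v c))) ?_ ?_ ?_ κ
  · intro κ κ' e ih ι p hp
    have h1 : SAP (fun w : ι ⊕ κ → ℝ => p (fun o => Sum.elim (fun i => w (Sum.inl i))
        (fun k => w (Sum.inr (e.symm k))) o)) := by
      refine hp.preimage fun o => ?_
      rcases o with i | k
      · exact PF.coord _
      · exact PF.coord _
    refine (ih ι _ h1).congr fun v => ?_
    constructor
    · rintro ⟨c, hc⟩
      refine ⟨fun k => c (e k), ?_⟩
      convert hc using 1
      funext o
      rcases o with i | k <;> simp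
    · rintro ⟨c, hc⟩
      refine ⟨fun k => c (e.symm k), ?_⟩
      convert hc using 1
      funext o
      rcases o with i | k <;> rfl
  · intro ι p hp
    have h1 : SAP (fun w : ι → ℝ => p (fun o => Sum.elim w (fun k : PEmpty => k.elim) o)) := by
      refine hp.preimage fun o => ?_
      rcases o with i | k
      · exact PF.coord _
      · exact k.elim
    refine h1.congr fun v => ?_
    constructor
    · rintro ⟨c, hc⟩
      have h2 : (fun o => Sum.elim v (fun k : PEmpty => k.elim) o) = Sum.elim v c := by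
        funext o
        rcases o with i | k
        · rfl
        · exact k.elim
      rw [h2]
      exact hc
    · intro hc
      refine ⟨fun k => k.elim, ?_⟩
      convert hc using 1
  · intro κ _ ih ι p hp
    have h1 : SAP (fun w : Option ι ⊕ κ → ℝ => p (fun o => Sum.elim
        (fun i => w (Sum.inl (some i)))
        (fun k => Option.elim k (w (Sum.inl none)) fun k => w (Sum.inr k)) o)) := by
      refine hp.preimage fun o => ?_
      rcases o with i | k
      · exact PF.coord _
      · rcases k with _ | k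
        · exact PF.coord _
        · exact PF.coord _
    refine (SAP.exists_real (ih (Option ι) _ h1)).congr fun v => ?_
    constructor
    · rintro ⟨c, hc⟩
      refine ⟨c none, fun k => c (some k), ?_⟩
      convert hc using 1
      funext o
      rcases o with i | k
      · rfl
      · rcases k with _ | k <;> rfl
    · rintro ⟨t, c, hc⟩
      refine ⟨fun k => Option.elim k t c, ?_⟩
      convert hc using 1
      funext o
      rcases o with i | k
      · rfl
      · rcases k with _ | k <;> rfl

/-- the basic solutions of `f'' = -μ f` -/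
structure Basic (μ : ℝ) (C S : ℝ → ℝ) : Prop where
  dC : ∀ x, HasDerivAt C (-(μ * S x)) x
  dS : ∀ x, HasDerivAt S (C x) x
  C0 : C 0 = 1
  S0 : S 0 = 0
  anC : AnalyticOnNhd ℝ C univ
  anS : AnalyticOnNhd ℝ S univ
  arc : ∀ L : ℝ, 0 < L →
    SAP (fun v : Bool → ℝ => ∃ y, 0 < y ∧ y < L ∧ v true = C y ∧ v false = S y)

theorem Basic.norm {μ : ℝ} {C S : ℝ → ℝ} (h : Basic μ C S) (x : ℝ) :
    C x ^ 2 + μ * S x ^ 2 = 1 := by
  have h1 : ∀ x, HasDerivAt (fun x => C x ^ 2 + μ * S x ^ 2) 0 x := by
    intro x
    have := ((h.dC x).pow 2).add (((h.dS x).pow 2).const_mul μ)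
    refine this.congr_deriv ?_
    simp
    ring
  have h2 := is_const_of_deriv_eq_zero (fun x => (h1 x).differentiableAt)
    (fun x => (h1 x).deriv) x 0
  rw [h2, h.C0, h.S0]
  ring

/-- the positive case -/
theorem basic_pos {μ : ℝ} (hμ : 0 < μ) : ∃ C S : ℝ → ℝ, Basic μ C S := by
  obtain ⟨k, hk, rfl⟩ : ∃ k : ℝ, 0 < k ∧ μ = k ^ 2 := ⟨√μ, Real.sqrt_pos.2 hμ, by
    rw [Real.sq_sqrt hμ.le]⟩
  have hlin : ∀ x, HasDerivAt (fun x : ℝ => k * x) k x := fun x => by
    simpa using (hasDerivAt_id x).const_mul k
  have hanl : AnalyticOnNhd ℝ (fun x : ℝ => k * x) univ :=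
    fun x _ => analyticAt_const.mul analyticAt_id
  refine ⟨fun x => Real.cos (k * x), fun x => Real.sin (k * x) / k, ?_, ?_, by simp, by simp, ?_,
    ?_, ?_⟩
  · intro x
    have h2 := (Real.hasDerivAt_cos (k * x)).comp x (hlin x)
    refine h2.congr_deriv ?_
    field_simp
  · intro x
    have h2 := ((Real.hasDerivAt_sin (k * x)).comp x (hlin x)).div_const k
    refine h2.congr_deriv ?_
    field_simp
  · intro x hx
    exact (Real.analyticAt_cos).comp (hanl x hx)
  · intro x hx
    exact ((Real.analyticAt_sin).comp (hanl x hx)).div_const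
  · intro L hL
    have hx : PF (fun v : Bool → ℝ => v true) := PF.coord _
    have hy : PF (fun v : Bool → ℝ => v false) := PF.coord _
    have hcirc : SAP (fun v : Bool → ℝ => v true ^ 2 + k ^ 2 * v false ^ 2 = 1) :=
      SAP.eq ((hx.pow 2).add ((PF.const (k ^ 2)).mul (hy.pow 2))) PF.one
    -- a point of the circle has an angle in `[0, 2 π)`
    have hang : ∀ c s : ℝ, c ^ 2 + k ^ 2 * s ^ 2 = 1 →
        ∃ θ, 0 ≤ θ ∧ θ < 2 * Real.pi ∧ c = Real.cos θ ∧ k * s = Real.sin θ := by
      intro c s hcs
      obtain ⟨θ, h1, h2⟩ : ∃ θ : ℝ, c = Real.cos θ ∧ k * s = Real.sin θ := by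
        have hz : ‖(⟨c, k * s⟩ : ℂ)‖ = 1 := by
          rw [Complex.norm_eq_sqrt_sq_add_sq]
          show √(c ^ 2 + (k * s) ^ 2) = 1
          rw [mul_pow, hcs, Real.sqrt_one]
        refine ⟨Complex.arg ⟨c, k * s⟩, ?_, ?_⟩
        · rw [Complex.cos_arg (by intro h; rw [h, norm_zero] at hz; exact zero_ne_one hz), hz]
          simp
        · rw [Complex.sin_arg, hz]
          simp
      have hp : (0 : ℝ) < 2 * Real.pi := Real.two_pi_pos
      refine ⟨toIcoMod hp 0 θ, (toIcoMod_mem_Ico hp 0 θ).1, ?_, ?_, ?_⟩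
      · simpa using (toIcoMod_mem_Ico hp 0 θ).2
      · rw [h1]
        conv_lhs => rw [← toIcoMod_add_toIcoDiv_zsmul hp 0 θ]
        rw [zsmul_eq_mul]
        exact Real.cos_add_int_mul_two_pi _ _
      · rw [h2]
        conv_lhs => rw [← toIcoMod_add_toIcoDiv_zsmul hp 0 θ]
        rw [zsmul_eq_mul]
        exact Real.sin_add_int_mul_two_pi _ _
    by_cases hLp : k * L ≤ 2 * Real.pi
    · have hline : SAP (fun v : Bool → ℝ => Real.cos (k * L / 2) <
          v true * Real.cos (k * L / 2) + v false * (k * Real.sin (k * L / 2))) :=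
        SAP.lt (PF.const _) ((hx.mul (PF.const _)).add (hy.mul (PF.const _)))
      refine (hcirc.and hline).congr fun v => ?_
      have key : ∀ θ : ℝ, 2 * (Real.sin (θ / 2) * Real.sin ((k * L - θ) / 2)) =
          Real.cos θ * Real.cos (k * L / 2) + Real.sin θ * Real.sin (k * L / 2) -
            Real.cos (k * L / 2) := by
        intro θ
        have e1 := Real.cos_sub (θ / 2) ((k * L - θ) / 2)
        have e2 := Real.cos_add (θ / 2) ((k * L - θ) / 2)
        have e3 : θ / 2 - (k * L - θ) / 2 = θ - k * L / 2 := by ring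
        have e4 : θ / 2 + (k * L - θ) / 2 = k * L / 2 := by ring
        rw [e3] at e1
        rw [e4] at e2
        rw [Real.cos_sub] at e1
        linarith
      constructor
      · rintro ⟨y, h1, h2, h3, h4⟩
        have h5 : 0 < k * y := mul_pos hk h1
        have h6 : k * y < k * L := mul_lt_mul_of_pos_left h2 hk
        refine ⟨?_, ?_⟩
        · rw [h3, h4, div_pow, mul_div_cancel₀ _ (pow_ne_zero 2 hk.ne')]
          exact Real.cos_sq_add_sin_sq _
        · have h7 : 0 < Real.sin (k * y / 2) := Real.sin_pos_of_pos_of_lt_pi (by linarith)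
            (by linarith)
          have h8 : 0 < Real.sin ((k * L - k * y) / 2) :=
            Real.sin_pos_of_pos_of_lt_pi (by linarith) (by linarith)
          have h9 := key (k * y)
          have h10 := mul_pos h7 h8
          rw [h3, h4]
          have h11 : Real.sin (k * y) / k * (k * Real.sin (k * L / 2)) =
              Real.sin (k * y) * Real.sin (k * L / 2) := by
            field_simp
          rw [h11]
          linarith
      · rintro ⟨h1, h2⟩
        obtain ⟨θ, h3, h4, h5, h6⟩ := hang _ _ h1
        have h7 := key θ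
        rw [h5] at h2
        have h8 : v false * (k * Real.sin (k * L / 2)) = Real.sin θ * Real.sin (k * L / 2) := by
          rw [← h6]
          ring
        rw [h8] at h2
        have h9 : 0 < Real.sin (θ / 2) * Real.sin ((k * L - θ) / 2) := by linarith
        have h10 : 0 ≤ Real.sin (θ / 2) :=
          Real.sin_nonneg_of_nonneg_of_le_pi (by linarith) (by linarith)
        have h11 : 0 < Real.sin ((k * L - θ) / 2) := by
          rcases h10.lt_or_eq with h | h
          · exact (mul_pos_iff_of_pos_left h).1 h9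
          · rw [← h, zero_mul] at h9
            exact absurd h9 (lt_irrefl _)
        have h12 : 0 < Real.sin (θ / 2) := (mul_pos_iff_of_pos_right h11).1 h9
        have h13 : 0 < θ := by
          rcases h3.lt_or_eq with h | h
          · exact h
          · rw [← h, zero_div, Real.sin_zero] at h12
            exact absurd h12 (lt_irrefl _)
        have h14 : θ < k * L := by
          by_contra hcon
          push Not at hcon
          have : Real.sin ((k * L - θ) / 2) ≤ 0 := by
            refine Real.sin_nonpos_of_nonpos_of_neg_pi_le (by linarith) ?_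
            have := mul_pos hk hL
            linarith
          linarith
        refine ⟨θ / k, div_pos h13 hk, ?_, ?_, ?_⟩
        · rw [div_lt_iff₀ hk]
          linarith
        · rw [mul_div_cancel₀ _ hk.ne', h5]
        · rw [mul_div_cancel₀ _ hk.ne', ← h6]
          field_simp
    · push Not at hLp
      refine hcirc.congr fun v => ?_
      constructor
      · rintro ⟨y, h1, h2, h3, h4⟩
        rw [h3, h4, div_pow, mul_div_cancel₀ _ (pow_ne_zero 2 hk.ne')]
        exact Real.cos_sq_add_sin_sq _
      · intro h1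
        obtain ⟨θ, h3, h4, h5, h6⟩ := hang _ _ h1
        rcases h3.lt_or_eq with h | h
        · refine ⟨θ / k, div_pos h hk, ?_, ?_, ?_⟩
          · rw [div_lt_iff₀ hk]
            linarith
          · rw [mul_div_cancel₀ _ hk.ne', h5]
          · rw [mul_div_cancel₀ _ hk.ne', ← h6]
            field_simp
        · refine ⟨2 * Real.pi / k, div_pos Real.two_pi_pos hk, ?_, ?_, ?_⟩
          · rw [div_lt_iff₀ hk]
            linarith
          · rw [mul_div_cancel₀ _ hk.ne', h5, ← h, Real.cos_zero, Real.cos_two_pi]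
          · rw [mul_div_cancel₀ _ hk.ne', Real.sin_two_pi, zero_div]
            rw [← h, Real.sin_zero] at h6
            exact (mul_eq_zero.1 h6).resolve_left hk.ne'

theorem basic_zero : ∃ C S : ℝ → ℝ, Basic 0 C S := by
  refine ⟨fun _ => 1, fun x => x, ?_, ?_, rfl, rfl, ?_, ?_, ?_⟩
  · intro x
    simpa using hasDerivAt_const x (1 : ℝ)
  · intro x
    exact hasDerivAt_id x
  · intro x _
    exact analyticAt_const
  · intro x _
    exact analyticAt_id
  · intro L hL
    have hx : PF (fun v : Bool → ℝ => v true) := PF.coord _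
    have hy : PF (fun v : Bool → ℝ => v false) := PF.coord _
    refine ((SAP.eq hx PF.one).and ((SAP.pos hy).and (SAP.lt hy (PF.const L)))).congr
      fun v => ?_
    constructor
    · rintro ⟨y, h1, h2, h3, h4⟩
      rw [h4]
      exact ⟨h3, h1, h2⟩
    · rintro ⟨h1, h2, h3⟩
      exact ⟨v false, h2, h3, h1, rfl⟩

theorem basic_neg {μ : ℝ} (hμ : μ < 0) : ∃ C S : ℝ → ℝ, Basic μ C S := by
  obtain ⟨k, hk, rfl⟩ : ∃ k : ℝ, 0 < k ∧ μ = -k ^ 2 := ⟨√(-μ), Real.sqrt_pos.2 (by linarith), by
    rw [Real.sq_sqrt (by linarith), neg_neg]⟩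
  have hlin : ∀ x, HasDerivAt (fun x : ℝ => k * x) k x := fun x => by
    simpa using (hasDerivAt_id x).const_mul k
  have hanl : AnalyticOnNhd ℝ (fun x : ℝ => k * x) univ :=
    fun x _ => analyticAt_const.mul analyticAt_id
  refine ⟨fun x => Real.cosh (k * x), fun x => Real.sinh (k * x) / k, ?_, ?_, by simp, by simp,
    ?_, ?_, ?_⟩
  · intro x
    have h2 := (Real.hasDerivAt_cosh (k * x)).comp x (hlin x)
    refine h2.congr_deriv ?_
    field_simp
  · intro x
    have h2 := ((Real.hasDerivAt_sinh (k * x)).comp x (hlin x)).div_const k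
    refine h2.congr_deriv ?_
    field_simp
  · intro x hx
    have h1 : (fun x => Real.cosh (k * x)) =
        fun x => (Real.exp (k * x) + Real.exp (-(k * x))) / 2 := by
      funext x
      exact Real.cosh_eq _
    rw [h1]
    exact (((analyticAt_rexp).comp (hanl x hx)).add
      ((analyticAt_rexp).comp (hanl x hx).neg)).div_const
  · intro x hx
    have h1 : (fun x => Real.sinh (k * x) / k) =
        fun x => (Real.exp (k * x) - Real.exp (-(k * x))) / 2 / k := by
      funext x
      rw [Real.sinh_eq]
    rw [h1]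
    exact ((((analyticAt_rexp).comp (hanl x hx)).sub
      ((analyticAt_rexp).comp (hanl x hx).neg)).div_const).div_const
  · intro L hL
    have hx : PF (fun v : Bool → ℝ => v true) := PF.coord _
    have hy : PF (fun v : Bool → ℝ => v false) := PF.coord _
    refine ((SAP.eq ((hx.pow 2).sub ((PF.const (k ^ 2)).mul (hy.pow 2))) PF.one).and
      ((SAP.pos hx).and ((SAP.pos hy).and
        (SAP.lt (hy.mul (PF.const k)) (PF.const (Real.sinh (k * L))))))).congr fun v => ?_
    constructor
    · rintro ⟨y, h1, h2, h3, h4⟩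
      refine ⟨?_, ?_, ?_, ?_⟩
      · rw [h3, h4, div_pow, mul_div_cancel₀ _ (pow_ne_zero 2 hk.ne')]
        exact Real.cosh_sq_sub_sinh_sq _
      · rw [h3]
        exact Real.cosh_pos _
      · rw [h4]
        exact div_pos (Real.sinh_pos_iff.2 (mul_pos hk h1)) hk
      · rw [h4, div_mul_cancel₀ _ hk.ne']
        exact Real.sinh_lt_sinh.2 (mul_lt_mul_of_pos_left h2 hk)
    · rintro ⟨h1, h2, h3, h4⟩
      have h5 : Real.sinh (Real.arsinh (v false * k)) = v false * k := Real.sinh_arsinh _
      have h6 : k * (Real.arsinh (v false * k) / k) = Real.arsinh (v false * k) :=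
        mul_div_cancel₀ _ hk.ne'
      have h7 : 0 < Real.arsinh (v false * k) := by
        rw [Real.arsinh_pos_iff]
        exact mul_pos h3 hk
      refine ⟨Real.arsinh (v false * k) / k, div_pos h7 hk, ?_, ?_, ?_⟩
      · rw [div_lt_iff₀ hk, ← Real.sinh_lt_sinh, h5, mul_comm L k]
        exact h4
      · rw [h6, Real.cosh_arsinh]
        rw [eq_comm, Real.sqrt_eq_iff_eq_sq (by positivity) h2.le]
        linarith
      · rw [h6, h5, mul_div_cancel_right₀ _ hk.ne']

theorem exists_basic (μ : ℝ) : ∃ C S : ℝ → ℝ, Basic μ C S := by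
  rcases lt_trichotomy μ 0 with h | rfl | h
  · exact basic_neg h
  · exact basic_zero
  · exact basic_pos h

/-- solutions on an interval -/
theorem Basic.sol {μ L : ℝ} {C S : ℝ → ℝ} (h : Basic μ C S) {f g : ℝ → ℝ}
    (hf : ∀ x ∈ Icc 0 L, HasDerivWithinAt f (g x) (Icc 0 L) x)
    (hg : ∀ x ∈ Icc 0 L, HasDerivWithinAt g (-(μ * f x)) (Icc 0 L) x) {x : ℝ}
    (hx : x ∈ Icc 0 L) :
    f x = f 0 * C x + g 0 * S x ∧ g x = -(μ * (f 0 * S x)) + g 0 * C x := by
  have hconst : ∀ (F : ℝ → ℝ), (∀ x ∈ Icc 0 L, HasDerivWithinAt F 0 (Icc 0 L) x) →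
      ∀ x ∈ Icc 0 L, F x = F 0 := by
    intro F hF x hx
    refine constant_of_derivWithin_zero (fun y hy => (hF y hy).differentiableWithinAt) ?_ x hx
    intro y hy
    have hL : (0 : ℝ) < L := lt_of_le_of_lt hy.1 hy.2
    exact (hF y ⟨hy.1, hy.2.le⟩).derivWithin (uniqueDiffOn_Icc hL y ⟨hy.1, hy.2.le⟩)
  have h1 := hconst (fun x => f x * C x - g x * S x) (by
    intro x hx
    have := ((hf x hx).fun_mul (h.dC x).hasDerivWithinAt).fun_sub
      ((hg x hx).fun_mul (h.dS x).hasDerivWithinAt)
    refine this.congr_deriv ?_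
    ring) x hx
  have h2 := hconst (fun x => μ * f x * S x + g x * C x) (by
    intro x hx
    have := (((hf x hx).const_mul μ).fun_mul (h.dS x).hasDerivWithinAt).fun_add
      ((hg x hx).fun_mul (h.dC x).hasDerivWithinAt)
    refine this.congr_deriv ?_
    ring) x hx
  simp only [h.C0, h.S0, mul_zero, mul_one, sub_zero, zero_add] at h1 h2
  have h3 := h.norm x
  constructor
  · rw [← h1, ← h2]
    linear_combination (-(f x)) * h3
  · rw [← h1, ← h2]
    linear_combination (-(g x)) * h3

end Pool.Agent.T9h73.HS
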