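import Pool.Agent.T9h73.HS.Alg
import Pool.Agent.R228.QG.Basic
set_option autoImplicit false

/-!
The hot spots of a compact metric graph on an edge: a semialgebraic condition on the values of the
basic solutions.
-/

namespace Pool.Agent.T9h73.HS

open Pool.Agent.Helper334_SA Pool.Agent.R228.QG Set

/-- the point `(C y, S y)` -/
def pt (C S : ℝ → ℝ) (y : ℝ) : Bool → ℝ := fun b => cond b (C y) (S y)

theorem arc_exists {μ : ℝ} {C S : ℝ → ℝ} (h : Basic μ C S) {L : ℝ} (hL : 0 < L) {ι : Type}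
    {R : (ι ⊕ Bool → ℝ) → Prop} (hR : SAP R) :
    SAP (fun w : ι → ℝ => ∃ y, 0 < y ∧ y < L ∧ R (Sum.elim w (pt C S y))) := by
  have h1 : SAP (fun z : ι ⊕ Bool → ℝ => (∃ y, 0 < y ∧ y < L ∧ z (Sum.inr true) = C y ∧
      z (Sum.inr false) = S y) ∧ R z) := by
    refine SAP.and ?_ hR
    exact (h.arc L hL).preimage (φ := fun z : ι ⊕ Bool → ℝ => fun b => z (Sum.inr b))
      fun b => PF.coord _
  refine (exists_vec Bool ι _ h1).congr fun w => ?_
  constructor
  · rintro ⟨y, h2, h3, h4⟩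
    exact ⟨pt C S y, ⟨y, h2, h3, rfl, rfl⟩, h4⟩
  · rintro ⟨c, ⟨y, h2, h3, h4, h5⟩, h6⟩
    refine ⟨y, h2, h3, ?_⟩
    have h7 : c = pt C S y := by
      funext b
      cases b
      · exact h5
      · exact h4
    rw [← h7]
    exact h6

section

/-- the index type of the data of a function: the values at the vertices, the values and the
derivatives at the beginnings of the edges -/
abbrev KK (V E : Type) : Type := V ⊕ (E ⊕ E)

variable {V E : Type} [Fintype V] [Fintype E] [DecidableEq V] (Γ : MGraph V E) (α : V → ℝ) (μ : ℝ)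
  (C S : ℝ → ℝ)

/-- the function is not zero -/
def Nz (w : Bool ⊕ KK V E → ℝ) : Prop :=
  (∃ v : V, w (Sum.inr (Sum.inl v)) ≠ 0) ∨
    ∃ e : E, ∃ y, 0 < y ∧ y < Γ.len e ∧
      w (Sum.inr (Sum.inr (Sum.inl e))) * C y + w (Sum.inr (Sum.inr (Sum.inr e))) * S y ≠ 0

/-- the linear conditions -/
def Lin (w : Bool ⊕ KK V E → ℝ) : Prop :=
  (∀ e : E, w (Sum.inr (Sum.inr (Sum.inl e))) = w (Sum.inr (Sum.inl (Γ.src e)))) ∧
  (∀ e : E, w (Sum.inr (Sum.inr (Sum.inl e))) * C (Γ.len e) +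
    w (Sum.inr (Sum.inr (Sum.inr e))) * S (Γ.len e) = w (Sum.inr (Sum.inl (Γ.tgt e)))) ∧
  ∀ v : V, (∑ e with Γ.src e = v, w (Sum.inr (Sum.inr (Sum.inr e)))) -
    (∑ e with Γ.tgt e = v, (w (Sum.inr (Sum.inr (Sum.inl e))) * (-(μ * S (Γ.len e))) +
      w (Sum.inr (Sum.inr (Sum.inr e))) * C (Γ.len e))) = α v * w (Sum.inr (Sum.inl v))

/-- the value at the marked point of the edge `e₀` -/
def vl (e₀ : E) (w : Bool ⊕ KK V E → ℝ) : ℝ :=
  w (Sum.inr (Sum.inr (Sum.inl e₀))) * w (Sum.inl true) +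
    w (Sum.inr (Sum.inr (Sum.inr e₀))) * w (Sum.inl false)

/-- the marked point is a maximum -/
def Mx (e₀ : E) (w : Bool ⊕ KK V E → ℝ) : Prop :=
  (∀ v : V, w (Sum.inr (Sum.inl v)) ≤ vl e₀ w) ∧
    ∀ e : E, ¬ ∃ y, 0 < y ∧ y < Γ.len e ∧ vl e₀ w <
      w (Sum.inr (Sum.inr (Sum.inl e))) * C y + w (Sum.inr (Sum.inr (Sum.inr e))) * S y

/-- the marked point is a minimum -/
def Mn (e₀ : E) (w : Bool ⊕ KK V E → ℝ) : Prop :=
  (∀ v : V, vl e₀ w ≤ w (Sum.inr (Sum.inl v))) ∧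
    ∀ e : E, ¬ ∃ y, 0 < y ∧ y < Γ.len e ∧
      w (Sum.inr (Sum.inr (Sum.inl e))) * C y + w (Sum.inr (Sum.inr (Sum.inr e))) * S y < vl e₀ w

/-- the condition on the marked point -/
def TT (e₀ : E) (u : Bool → ℝ) : Prop :=
  ∃ c : KK V E → ℝ, Nz Γ C S (Sum.elim u c) ∧ Lin Γ α μ C S (Sum.elim u c) ∧
    (Mx Γ C S e₀ (Sum.elim u c) ∨ Mn Γ C S e₀ (Sum.elim u c))

theorem forall_fin {ι : Type} {A : Type} [Finite A] {p : A → (ι → ℝ) → Prop}
    (h : ∀ a, SAP (p a)) : SAP (fun v => ∀ a, p a v) := by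
  have h1 : SAP (fun v => ∃ a, ¬ p a v) := SAP.exists_fin fun a => (h a).not
  refine h1.not.congr fun v => ?_
  push Not
  rfl

theorem pf_vl (e₀ : E) : PF (fun w : Bool ⊕ KK V E → ℝ => vl e₀ w) :=
  ((PF.coord _).mul (PF.coord _)).add ((PF.coord _).mul (PF.coord _))

variable {μ C S}

theorem sap_TT (h : Basic μ C S) (e₀ : E) : SAP (TT Γ α μ C S e₀) := by
  refine exists_vec (KK V E) Bool (fun w => Nz Γ C S w ∧ Lin Γ α μ C S w ∧
    (Mx Γ C S e₀ w ∨ Mn Γ C S e₀ w)) ?_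
  have hval : ∀ e : E, PF (fun z : (Bool ⊕ KK V E) ⊕ Bool → ℝ =>
      z (Sum.inl (Sum.inr (Sum.inr (Sum.inl e)))) * z (Sum.inr true) +
        z (Sum.inl (Sum.inr (Sum.inr (Sum.inr e)))) * z (Sum.inr false)) := fun e =>
    ((PF.coord _).mul (PF.coord _)).add ((PF.coord _).mul (PF.coord _))
  have hvl : PF (fun z : (Bool ⊕ KK V E) ⊕ Bool → ℝ => vl e₀ fun o => z (Sum.inl o)) :=
    ((PF.coord _).mul (PF.coord _)).add ((PF.coord _).mul (PF.coord _))
  refine SAP.and ?_ (SAP.and ?_ (SAP.or ?_ ?_))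
  · refine SAP.or (SAP.exists_fin fun v => (SAP.eq_zero (PF.coord _)).not)
      (SAP.exists_fin fun e => ?_)
    exact arc_exists h (Γ.len_pos e) (R := fun z => z (Sum.inl (Sum.inr (Sum.inr (Sum.inl e)))) *
      z (Sum.inr true) + z (Sum.inl (Sum.inr (Sum.inr (Sum.inr e)))) * z (Sum.inr false) ≠ 0)
      (SAP.eq_zero (hval e)).not
  · refine SAP.and (forall_fin fun e => SAP.eq (PF.coord _) (PF.coord _)) (SAP.and
      (forall_fin fun e => SAP.eq (((PF.coord _).mul (PF.const _)).add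
        ((PF.coord _).mul (PF.const _))) (PF.coord _)) (forall_fin fun v => SAP.eq
        (PF.sub (PF.sum _ fun e _ => PF.coord _) (PF.sum _ fun e _ =>
          ((PF.coord _).mul (PF.const _)).add ((PF.coord _).mul (PF.const _))))
        ((PF.const _).mul (PF.coord _))))
  · refine SAP.and (forall_fin fun v => SAP.le (PF.coord _) (pf_vl e₀))
      (forall_fin fun e => SAP.not ?_)
    exact arc_exists h (Γ.len_pos e) (R := fun z => vl e₀ (fun o => z (Sum.inl o)) <
      z (Sum.inl (Sum.inr (Sum.inr (Sum.inl e)))) *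
      z (Sum.inr true) + z (Sum.inl (Sum.inr (Sum.inr (Sum.inr e)))) * z (Sum.inr false))
      (SAP.lt hvl (hval e))
  · refine SAP.and (forall_fin fun v => SAP.le (pf_vl e₀) (PF.coord _))
      (forall_fin fun e => SAP.not ?_)
    exact arc_exists h (Γ.len_pos e) (R := fun z =>
      z (Sum.inl (Sum.inr (Sum.inr (Sum.inl e)))) *
      z (Sum.inr true) + z (Sum.inl (Sum.inr (Sum.inr (Sum.inr e)))) * z (Sum.inr false) <
      vl e₀ (fun o => z (Sum.inl o)))
      (SAP.lt (hval e) hvl)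

theorem mem_iff (h : Basic μ C S) (hμ : IsSecondEigenvalue Γ α μ) (e₀ : E) (x : ℝ)
    (hx : 0 < x ∧ x < Γ.len e₀) :
    TT Γ α μ C S e₀ (pt C S x) ↔ (Sum.inr ⟨(e₀, x), hx⟩ : Γ.Point) ∈ hotSet Γ α := by
  constructor
  · rintro ⟨c, hnz, ⟨hl1, hl2, hl3⟩, hmm⟩
    refine ⟨μ, ⟨fun v => c (Sum.inl v), fun e y => c (Sum.inr (Sum.inl e)) * C y +
      c (Sum.inr (Sum.inr e)) * S y⟩, hμ, ⟨?_, fun e y => c (Sum.inr (Sum.inl e)) * (-(μ * S y)) +
      c (Sum.inr (Sum.inr e)) * C y, ?_, ?_, ?_, ?_, ?_⟩, ?_⟩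
    · rcases hnz with ⟨v, hv⟩ | ⟨e, y, h1, h2, h3⟩
      · exact ⟨Sum.inl v, hv⟩
      · exact ⟨Sum.inr ⟨(e, y), h1, h2⟩, h3⟩
    · intro e
      show c (Sum.inr (Sum.inl e)) * C 0 + c (Sum.inr (Sum.inr e)) * S 0 = c (Sum.inl (Γ.src e))
      rw [h.C0, h.S0, mul_one, mul_zero, add_zero]
      exact hl1 e
    · intro e
      exact hl2 e
    · intro e y _
      exact (((h.dC y).const_mul _).add ((h.dS y).const_mul _)).hasDerivWithinAt
    · intro e y _
      have := ((((h.dS y).const_mul μ).neg).const_mul (c (Sum.inr (Sum.inl e)))).add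
        ((h.dC y).const_mul (c (Sum.inr (Sum.inr e))))
      refine (this.congr_deriv ?_).hasDerivWithinAt
      ring
    · intro v
      have h1 := hl3 v
      simp only [h.C0, h.S0, mul_zero, neg_zero, mul_one, zero_add]
      exact h1
    · rcases hmm with ⟨h1, h2⟩ | ⟨h1, h2⟩
      · left
        rintro (v | ⟨⟨e, y⟩, hy⟩)
        · exact h1 v
        · by_contra hcon
          push Not at hcon
          exact h2 e ⟨y, hy.1, hy.2, hcon⟩
      · right
        rintro (v | ⟨⟨e, y⟩, hy⟩)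
        · exact h1 v
        · by_contra hcon
          push Not at hcon
          exact h2 e ⟨y, hy.1, hy.2, hcon⟩
  · rintro ⟨μ', f, hμ', ⟨⟨P, hP⟩, g, h0, h1, hf, hg, hK⟩, hmm⟩
    have hmu : μ' = μ := by
      obtain ⟨l, hl, hl'⟩ := hμ
      obtain ⟨l2, hl2, hl2'⟩ := hμ'
      have h3 : l2 = l := hl2.unique hl
      subst h3
      exact hl2'.unique hl'
    subst hmu
    have hs := fun e => fun y (hy : y ∈ Icc 0 (Γ.len e)) => h.sol (hf e) (hg e) hy
    have hs1 : ∀ e y, 0 < y → y < Γ.len e → f.edge e 0 * C y + g e 0 * S y = f.edge e y :=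
      fun e y h2 h3 => ((hs e y ⟨h2.le, h3.le⟩).1).symm
    have hsL : ∀ e, Γ.len e ∈ Icc 0 (Γ.len e) := fun e => right_mem_Icc.2 (Γ.len_pos e).le
    have hvx : vl e₀ (Sum.elim (pt C S x) (Sum.elim f.vert (Sum.elim (fun e => f.edge e 0)
        (fun e => g e 0)))) = f.edge e₀ x := hs1 e₀ x hx.1 hx.2
    refine ⟨Sum.elim f.vert (Sum.elim (fun e => f.edge e 0) (fun e => g e 0)), ?_, ⟨?_, ?_, ?_⟩, ?_⟩
    · rcases P with v | ⟨⟨e, y⟩, hy⟩
      · exact Or.inl ⟨v, hP⟩
      · refine Or.inr ⟨e, y, hy.1, hy.2, ?_⟩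
        show f.edge e 0 * C y + g e 0 * S y ≠ 0
        rw [hs1 e y hy.1 hy.2]
        exact hP
    · intro e
      exact h0 e
    · intro e
      show f.edge e 0 * C (Γ.len e) + g e 0 * S (Γ.len e) = f.vert (Γ.tgt e)
      rw [← h1 e]
      exact ((hs e _ (hsL e)).1).symm
    · intro v
      show (∑ e with Γ.src e = v, g e 0) - (∑ e with Γ.tgt e = v,
        (f.edge e 0 * (-(μ' * S (Γ.len e))) + g e 0 * C (Γ.len e))) = α v * f.vert v
      rw [← hK v]
      congr 1
      refine Finset.sum_congr rfl fun e _ => ?_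
      rw [(hs e _ (hsL e)).2]
      ring
    · rcases hmm with hm | hm
      · left
        constructor
        · intro v
          rw [hvx]
          exact hm (Sum.inl v)
        · rintro e ⟨y, h2, h3, h4⟩
          rw [hvx] at h4
          have h5 := hm (Sum.inr ⟨(e, y), h2, h3⟩)
          have h6 : f.edge e₀ x < f.edge e 0 * C y + g e 0 * S y := h4
          rw [hs1 e y h2 h3] at h6
          exact absurd h5 (not_le.2 h6)
      · right
        constructor
        · intro v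
          rw [hvx]
          exact hm (Sum.inl v)
        · rintro e ⟨y, h2, h3, h4⟩
          rw [hvx] at h4
          have h5 := hm (Sum.inr ⟨(e, y), h2, h3⟩)
          have h6 : f.edge e 0 * C y + g e 0 * S y < f.edge e₀ x := h4
          rw [hs1 e y h2 h3] at h6
          exact absurd h5 (not_le.2 h6)

end

/-- an analytic function which is not zero has finitely many zeros in an interval -/
theorem finite_zeros {f : ℝ → ℝ} (hf : AnalyticOnNhd ℝ f univ) (hne : ∃ x, f x ≠ 0) (a b : ℝ) :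
    {x | x ∈ Icc a b ∧ f x = 0}.Finite := by
  by_contra hinf
  obtain ⟨z, -, hz⟩ := Set.Infinite.exists_accPt_of_subset_isCompact
    (show {x | x ∈ Icc a b ∧ f x = 0}.Infinite from hinf) isCompact_Icc (fun x hx => hx.1)
  have h1 : ∃ᶠ y in nhdsWithin z {z}ᶜ, f y = 0 := by
    rw [accPt_iff_frequently] at hz
    rw [frequently_nhdsWithin_iff]
    exact hz.mono fun y hy => ⟨hy.2.2, hy.1⟩
  have h2 := hf.eqOn_zero_of_preconnected_of_frequently_eq_zero isPreconnected_univ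
    (Set.mem_univ z) h1
  obtain ⟨x, hx⟩ := hne
  exact hx (h2 (Set.mem_univ x))

theorem sign_const {f : ℝ → ℝ} (hf : Continuous f) {x y : ℝ} (hxy : x ≤ y)
    (h0 : ∀ z ∈ Icc x y, f z ≠ 0) : SignType.sign (f x) = SignType.sign (f y) := by
  rcases lt_or_gt_of_ne (h0 x (left_mem_Icc.2 hxy)) with h1 | h1 <;>
    rcases lt_or_gt_of_ne (h0 y (right_mem_Icc.2 hxy)) with h2 | h2
  · rw [sign_neg h1, sign_neg h2]
  · obtain ⟨z, hz, hz0⟩ := intermediate_value_Icc hxy hf.continuousOn ⟨h1.le, h2.le⟩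
    exact absurd hz0 (h0 z hz)
  · obtain ⟨z, hz, hz0⟩ := intermediate_value_Icc' hxy hf.continuousOn ⟨h2.le, h1.le⟩
    exact absurd hz0 (h0 z hz)
  · rw [sign_pos h1, sign_pos h2]

theorem edge_structure {V E : Type} [Fintype V] [Fintype E] [DecidableEq V] (Γ : MGraph V E)
    (α : V → ℝ) (e : E) : ∃ F : Set ℝ, F.Finite ∧ ∀ (x y : ℝ) (hx : 0 < x ∧ x < Γ.len e)
      (hy : 0 < y ∧ y < Γ.len e), x ≤ y → (∀ z ∈ F, z < x ∨ y < z) →
      ((Sum.inr ⟨(e, x), hx⟩ : Γ.Point) ∈ hotSet Γ α ↔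
        (Sum.inr ⟨(e, y), hy⟩ : Γ.Point) ∈ hotSet Γ α) := by
  classical
  by_cases hex : ∃ μ, IsSecondEigenvalue Γ α μ
  · obtain ⟨μ, hμ⟩ := hex
    obtain ⟨C, S, h⟩ := exists_basic μ
    obtain ⟨Q, hQ⟩ := SA.iff (sap_TT Γ α h e)
    have han : ∀ q : MvPolynomial Bool ℝ,
        AnalyticOnNhd ℝ (fun x => MvPolynomial.aeval (pt C S x) q) univ := by
      intro q x hx
      refine AnalyticAt.aeval_mvPolynomial (fun b => ?_) q
      cases b
      · exact h.anS x hx
      · exact h.anC x hx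
    refine ⟨⋃ q ∈ (Q.filter fun q => ∃ x, MvPolynomial.aeval (pt C S x) q ≠ 0),
      {x | x ∈ Icc 0 (Γ.len e) ∧ MvPolynomial.aeval (pt C S x) q = 0}, ?_, ?_⟩
    · refine Set.Finite.biUnion (Finset.finite_toSet _) fun q hq => ?_
      have hq' := (Finset.mem_filter.1 hq).2
      exact finite_zeros (han q) hq' _ _
    · intro x y hx hy hxy hF
      rw [← mem_iff Γ α h hμ e x hx, ← mem_iff Γ α h hμ e y hy]
      refine hQ _ _ fun q hq => ?_
      by_cases hq0 : ∃ x, MvPolynomial.aeval (pt C S x) q ≠ 0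
      · refine sign_const (f := fun x => MvPolynomial.aeval (pt C S x) q)
          (continuous_iff_continuousAt.2 fun z => (han q z (mem_univ z)).continuousAt) hxy ?_
        intro z hz hz0
        have hzF := hF z (Set.mem_biUnion (Finset.mem_coe.2 (Finset.mem_filter.2 ⟨hq, hq0⟩))
          ⟨⟨hx.1.le.trans hz.1, hz.2.trans hy.2.le⟩, hz0⟩)
        rcases hzF with h1 | h1
        · exact absurd hz.1 (not_le.2 h1)
        · exact absurd hz.2 (not_le.2 h1)
      · push Not at hq0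
        rw [hq0, hq0]
  · refine ⟨∅, Set.finite_empty, fun x y hx hy _ _ => ?_⟩
    constructor
    · rintro ⟨μ, f, h1, -⟩
      exact absurd ⟨μ, h1⟩ hex
    · rintro ⟨μ, f, h1, -⟩
      exact absurd ⟨μ, h1⟩ hex

theorem finite_or_uncountable {V E : Type} [Fintype V] [Fintype E] [DecidableEq V]
    (Γ : MGraph V E) (α : V → ℝ) : (hotSet Γ α).Finite ∨ ¬ (hotSet Γ α).Countable := by
  classical
  by_contra hcon
  push Not at hcon
  obtain ⟨hinf, hcount⟩ := hcon
  -- an edge with infinitely many hot spots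
  have h1 : ∃ e : E, {x : ℝ | ∃ hx : 0 < x ∧ x < Γ.len e,
      (Sum.inr ⟨(e, x), hx⟩ : Γ.Point) ∈ hotSet Γ α}.Infinite := by
    by_contra hno
    push Not at hno
    apply hinf
    have hfin : ((Sum.inl '' (Set.univ : Set V)) ∪ ⋃ e : E,
        (fun p : {x : ℝ | ∃ hx : 0 < x ∧ x < Γ.len e,
          (Sum.inr ⟨(e, x), hx⟩ : Γ.Point) ∈ hotSet Γ α} =>
          (Sum.inr ⟨(e, p.1), p.2.1⟩ : Γ.Point)) '' Set.univ).Finite := by
      refine Set.Finite.union (Set.toFinite _) (Set.finite_iUnion fun e => ?_)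
      have := (hno e).to_subtype
      exact Set.toFinite _
    refine hfin.subset ?_
    rintro (v | ⟨⟨e, x⟩, hx⟩) hP
    · exact Or.inl ⟨v, mem_univ _, rfl⟩
    · refine Or.inr (Set.mem_iUnion.2 ⟨e, ⟨x, hx, hP⟩, mem_univ _, rfl⟩)
  obtain ⟨e, he⟩ := h1
  obtain ⟨F, hF, hst⟩ := edge_structure Γ α e
  obtain ⟨x, ⟨hx, hxM⟩, hxF⟩ := he.exists_notMem_finite hF
  -- an interval around `x`
  obtain ⟨δ, hδ, hball⟩ : ∃ δ > 0, ∀ z, |z - x| < δ → z ∉ F ∧ 0 < z ∧ z < Γ.len e := by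
    have hop : IsOpen (Fᶜ ∩ Ioo 0 (Γ.len e)) := hF.isClosed.isOpen_compl.inter isOpen_Ioo
    obtain ⟨δ, hδ, hs⟩ := Metric.isOpen_iff.1 hop x ⟨hxF, hx⟩
    refine ⟨δ, hδ, fun z hz => ?_⟩
    have := hs (show z ∈ Metric.ball x δ from by rwa [Metric.mem_ball, Real.dist_eq])
    exact ⟨this.1, this.2.1, this.2.2⟩
  have hall : ∀ z (hz : |z - x| < δ),
      (Sum.inr ⟨(e, z), (hball z hz).2⟩ : Γ.Point) ∈ hotSet Γ α := by
    intro z hz
    rcases le_total z x with hzx | hzx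
    · refine (hst z x (hball z hz).2 hx hzx fun t ht => ?_).2 hxM
      by_contra hc
      push Not at hc
      refine (hball t ?_).1 ht
      rw [abs_lt] at hz ⊢
      constructor <;> linarith [hc.1, hc.2, hz.1]
    · refine (hst x z hx (hball z hz).2 hzx fun t ht => ?_).1 hxM
      by_contra hc
      push Not at hc
      refine (hball t ?_).1 ht
      rw [abs_lt] at hz ⊢
      constructor <;> linarith [hc.1, hc.2, hz.2]
  -- it is not countable
  have hinj : Function.Injective (fun z : Metric.ball x δ =>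
      (Sum.inr ⟨(e, z.1), (hball z.1 (by
        have := z.2
        rwa [Metric.mem_ball, Real.dist_eq] at this)).2⟩ : Γ.Point)) := by
    intro z z' hzz
    have h2 := Sum.inr.inj hzz
    have h3 := congrArg (fun p => p.1.2) h2
    exact Subtype.ext h3
  have hc2 : (Set.univ : Set (Metric.ball x δ)).Countable := by
    refine Set.MapsTo.countable_of_injOn (f := fun z : Metric.ball x δ =>
      (Sum.inr ⟨(e, z.1), (hball z.1 (by
        have := z.2
        rwa [Metric.mem_ball, Real.dist_eq] at this)).2⟩ : Γ.Point)) (t := hotSet Γ α) ?_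
      hinj.injOn hcount
    intro z _
    have := z.2
    rw [Metric.mem_ball, Real.dist_eq] at this
    exact hall z.1 this
  rw [Set.countable_univ_iff] at hc2
  have hc3 : (Metric.ball x δ).Countable := Set.countable_coe_iff.1 hc2
  rw [Real.ball_eq_Ioo] at hc3
  exact Cardinal.Real.Ioo_countable_iff.not.2 (by linarith) hc3

end Pool.Agent.T9h73.HS
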